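import Pool.Agent.Helper75.Conv.Comm

/-! In a compact Hausdorff space with a transitive group a nonempty set that is invariant under a
subgroup of countable index is not meager; hence the theorem of Comm.lean applies to every group
with an infinite orbit such that each element of a subgroup of countable index commutes with a
subgroup of finite index. -/

namespace Helper75.Conv

open Topology Filter Set Helper77.Distal

variable {X : Type*} [TopologicalSpace X] [CompactSpace X] [T2Space X]
variable {G : Type*} [Group G] [MulAction G X] [ContinuousConstSMul G X]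

/-- The translates of a point by representatives cover the space. -/
theorem exists_translate (htr : ∀ x y : X, ∃ g : G, g • x = y) (C : Subgroup G) {B : Set X}
    (hB : ∀ c ∈ C, ∀ y ∈ B, c • y ∈ B) {b : X} (hb : b ∈ B) (y : X) :
    ∃ q : G ⧸ C, q.out⁻¹ • y ∈ B := by
  obtain ⟨g, rfl⟩ := htr b y
  refine ⟨(g : G ⧸ C), ?_⟩
  rw [smul_smul]
  refine hB _ ?_ b hb
  rw [← QuotientGroup.eq, QuotientGroup.out_eq']

/-- A nonempty set that is invariant under a subgroup of countable index is not a countable union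
of closed sets with empty interior. -/
theorem not_meager (htr : ∀ x y : X, ∃ g : G, g • x = y) (C : Subgroup G)
    [Countable (G ⧸ C)] {B : Set X} (hB : ∀ c ∈ C, ∀ y ∈ B, c • y ∈ B) (F : ℕ → Set X)
    (hF : ∀ n, IsClosed (F n)) (hcov : B ⊆ ⋃ n, F n) (hint : ∀ n, interior (F n) = ∅) :
    B = ∅ := by
  by_contra hne
  obtain ⟨b, hb⟩ := nonempty_iff_ne_empty.mpr hne
  have hX : Nonempty X := ⟨b⟩
  let f : (G ⧸ C) × ℕ → Set X := fun q => (fun y : X => q.1.out⁻¹ • y) ⁻¹' F q.2
  obtain ⟨q, y, hy⟩ := nonempty_interior_of_iUnion_of_closed (f := f)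
    (fun q => (hF q.2).preimage (continuous_const_smul _)) (by
      rw [eq_univ_iff_forall]
      intro y
      obtain ⟨q, hq⟩ := exists_translate htr C hB hb y
      obtain ⟨n, hn⟩ := mem_iUnion.mp (hcov hq)
      exact mem_iUnion.mpr ⟨(q, n), hn⟩)
  have h1 : q.1.out⁻¹ • y ∈ interior (F q.2) := by
    have h2 : (fun z : X => q.1.out • z) ⁻¹' interior (f q) ⊆ F q.2 := by
      intro z hz
      have h4 : q.1.out • z ∈ f q := interior_subset hz
      have h3 : q.1.out⁻¹ • q.1.out • z ∈ F q.2 := h4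
      rwa [inv_smul_smul] at h3
    refine interior_maximal h2 (isOpen_interior.preimage (continuous_const_smul _)) ?_
    show q.1.out • q.1.out⁻¹ • y ∈ interior (f q)
    rwa [smul_inv_smul]
  rw [hint] at h1
  exact h1

/-- Points with at most `n` points in their orbit. -/
def K (T : Type*) [Group T] (X : Type*) [MulAction T X] (n : ℕ) : Set X :=
  {y | ¬ ∃ i : Fin (n + 1) → T, Function.Injective fun k => i k • y}

theorem isClosed_K (T : Type*) [Group T] [MulAction T X] [ContinuousConstSMul T X] (n : ℕ) :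
    IsClosed (K T X n) := by
  rw [← isOpen_compl_iff]
  have : (K T X n)ᶜ = ⋃ i : Fin (n + 1) → T, ⋂ p ∈ {p : Fin (n + 1) × Fin (n + 1) | p.1 ≠ p.2},
      {y : X | i p.1 • y ≠ i p.2 • y} := by
    ext y
    simp only [K, mem_compl_iff, Set.mem_ofPred_eq, not_not, mem_iUnion, mem_iInter]
    constructor
    · rintro ⟨i, hi⟩
      exact ⟨i, fun p hp h => hp (hi h)⟩
    · rintro ⟨i, hi⟩
      refine ⟨i, fun a b hab => ?_⟩
      by_contra hne
      exact hi (a, b) hne hab
  rw [this]
  refine isOpen_iUnion fun i => ?_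
  refine (Set.toFinite _).isOpen_biInter fun p _ => ?_
  exact isOpen_ne_fun (continuous_const_smul _) (continuous_const_smul _)

theorem mem_K_iff {T : Type*} [Group T] {X : Type*} [MulAction T X] (y : X) (n : ℕ) :
    y ∈ K T X n ↔ (MulAction.orbit T y).encard ≤ n := by
  rw [K, Set.mem_ofPred_eq, ← not_lt, not_iff_not]
  constructor
  · rintro ⟨i, hi⟩
    have h1 : (range fun k => i k • y).encard ≤ (MulAction.orbit T y).encard :=
      encard_le_encard (by rintro _ ⟨k, rfl⟩; exact ⟨i k, rfl⟩)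
    rw [← image_univ, hi.encard_image, encard_univ, ENat.card_eq_coe_fintype_card,
      Fintype.card_fin] at h1
    refine lt_of_lt_of_le ?_ h1
    exact_mod_cast Nat.lt_succ_self n
  · intro h
    have h1 : ((n + 1 : ℕ) : ℕ∞) ≤ (MulAction.orbit T y).encard := by
      have := Order.add_one_le_of_lt h
      exact_mod_cast this
    obtain ⟨t, hts, htc⟩ := exists_subset_encard_eq h1
    have htf : t.Finite := finite_of_encard_eq_coe htc
    have hcard : Nat.card t = n + 1 := by
      have h2 : t.ncard = n + 1 := by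
        rw [ncard_def, htc]
        exact ENat.toNat_coe _
      exact h2
    have : Finite t := htf.to_subtype
    let e : Fin (n + 1) ≃ t := (finCongr hcard.symm).trans (Finite.equivFin t).symm
    have hmem : ∀ k, ∃ g : T, g • y = (e k : X) := fun k => hts (e k).2
    choose i hi using hmem
    refine ⟨i, fun a b hab => e.injective (Subtype.ext ?_)⟩
    rw [← hi, ← hi]
    exact hab

theorem infinite_iff_K {T : Type*} [Group T] {X : Type*} [MulAction T X] (y : X) :
    (MulAction.orbit T y).Infinite ↔ ∀ n, y ∉ K T X n := by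
  constructor
  · intro h n hn
    rw [mem_K_iff, h.encard_eq] at hn
    exact absurd hn (by simp)
  · intro h hfin
    refine h (MulAction.orbit T y).ncard ((mem_K_iff _ _).mpr ?_)
    rw [hfin.cast_ncard_eq]

/-- A map that commutes with a subgroup of finite index multiplies the sizes of finite orbits at
most by the index. -/
theorem smul_mem_K {T : Type*} [Group T] {X : Type*} [MulAction T X] {L : Subgroup T}
    [L.FiniteIndex] {θ : X → X} (hcomm : ∀ t ∈ L, ∀ z, θ (t • z) = t • θ z) {n : ℕ} {y : X}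
    (hy : y ∈ K T X n) : θ y ∈ K T X (L.index * n) := by
  have hfin : Finite (T ⧸ L) := Subgroup.finite_quotient_of_finiteIndex
  rw [mem_K_iff] at hy ⊢
  have hsub : MulAction.orbit T (θ y) ⊆
      (fun p : (T ⧸ L) × X => p.1.out • θ p.2) '' (univ ×ˢ MulAction.orbit T y) := by
    rintro _ ⟨g, rfl⟩
    refine ⟨((g : T ⧸ L), (((g : T ⧸ L).out)⁻¹ * g) • y), ⟨mem_univ _, ⟨_, rfl⟩⟩, ?_⟩
    show ((g : T ⧸ L).out) • θ ((((g : T ⧸ L).out)⁻¹ * g) • y) = g • θ y
    rw [hcomm, smul_smul, mul_inv_cancel_left]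
    rw [← QuotientGroup.eq, QuotientGroup.out_eq']
  calc (MulAction.orbit T (θ y)).encard
      ≤ ((fun p : (T ⧸ L) × X => p.1.out • θ p.2) '' (univ ×ˢ MulAction.orbit T y)).encard :=
        encard_le_encard hsub
    _ ≤ (univ ×ˢ MulAction.orbit T y : Set ((T ⧸ L) × X)).encard := encard_image_le _ _
    _ = (univ : Set (T ⧸ L)).encard * (MulAction.orbit T y).encard := encard_prod
    _ ≤ (L.index : ℕ∞) * n := by
        gcongr
        rw [← (Set.toFinite (univ : Set (T ⧸ L))).cast_ncard_eq, ncard_univ]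
        exact le_rfl
    _ = ((L.index * n : ℕ) : ℕ∞) := by push_cast; rfl

/-- **Theorem A prime.** A group with an infinite orbit such that each element of a subgroup of
countable index of a transitive group commutes with a subgroup of finite index. -/
theorem countable_index (htr : ∀ x y : X, ∃ g : G, g • x = y) (C : Subgroup G)
    [Countable (G ⧸ C)] {T : Type*} [Group T] [MulAction T X] [ContinuousConstSMul T X]
    (hcomm : ∀ c ∈ C, ∃ L : Subgroup T, L.FiniteIndex ∧ ∀ t ∈ L, ∀ y : X, c • t • y = t • c • y)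
    {x : X} (hinf : (MulAction.orbit T x).Infinite) :
    ∃ (s : ℕ → X) (a : X), Function.Injective s ∧ Tendsto s atTop (𝓝 a) := by
  set Ω : Set X := ⋃ n, interior (K T X n) with hΩ
  have hΩopen : IsOpen Ω := isOpen_iUnion fun n => isOpen_interior
  -- `Ω` is invariant
  have hΩC : ∀ c ∈ C, ∀ y ∈ Ω, c • y ∈ Ω := by
    intro c hc y hy
    obtain ⟨n, hn⟩ := mem_iUnion.mp hy
    obtain ⟨L, hL, hcL⟩ := hcomm c hc
    refine mem_iUnion.mpr ⟨L.index * n, ?_⟩
    have h1 : (fun z : X => c⁻¹ • z) ⁻¹' interior (K T X n) ⊆ K T X (L.index * n) := by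
      intro z hz
      have h2 : c⁻¹ • z ∈ K T X n := interior_subset hz
      have h3 := smul_mem_K (θ := fun w : X => c • w) hcL h2
      have h4 : c • c⁻¹ • z ∈ K T X (L.index * n) := h3
      rwa [smul_inv_smul] at h4
    refine interior_maximal h1 (isOpen_interior.preimage (continuous_const_smul _)) ?_
    show c⁻¹ • c • y ∈ interior (K T X n)
    rwa [inv_smul_smul]
  have hΩC' : ∀ c ∈ C, ∀ y ∈ Ωᶜ, c • y ∈ Ωᶜ := by
    intro c hc y hy h
    refine hy ?_
    have := hΩC c⁻¹ (C.inv_mem hc) _ h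
    rwa [inv_smul_smul] at this
  -- outside `Ω` all orbits are infinite
  have hempty := not_meager htr C (B := Ωᶜ ∩ ⋃ n, K T X n) (by
      rintro c hc y ⟨hy1, hy2⟩
      refine ⟨hΩC' c hc y hy1, ?_⟩
      obtain ⟨n, hn⟩ := mem_iUnion.mp hy2
      obtain ⟨L, hL, hcL⟩ := hcomm c hc
      exact mem_iUnion.mpr ⟨L.index * n, smul_mem_K (θ := fun w : X => c • w) hcL hn⟩)
    (fun n => Ωᶜ ∩ K T X n) (fun n => hΩopen.isClosed_compl.inter (isClosed_K T n)) (by
      rintro y ⟨hy1, hy2⟩
      obtain ⟨n, hn⟩ := mem_iUnion.mp hy2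
      exact mem_iUnion.mpr ⟨n, hy1, hn⟩) (by
      intro n
      rw [eq_empty_iff_forall_notMem]
      intro y hy
      have h1 : y ∈ interior (K T X n) := interior_mono inter_subset_right hy
      exact (interior_subset hy).1 (mem_iUnion.mpr ⟨n, h1⟩))
  have hYinf : ∀ y ∈ Ωᶜ, (MulAction.orbit T y).Infinite := by
    intro y hy
    rw [infinite_iff_K]
    intro n hn
    have : y ∈ Ωᶜ ∩ ⋃ n, K T X n := ⟨hy, mem_iUnion.mpr ⟨n, hn⟩⟩
    rw [hempty] at this
    exact this
  have hYiff : ∀ y, y ∈ Ωᶜ ↔ (MulAction.orbit T y).Infinite := by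
    intro y
    refine ⟨hYinf y, fun h hy => ?_⟩
    obtain ⟨n, hn⟩ := mem_iUnion.mp hy
    exact (infinite_iff_K y).mp h n (interior_subset hn)
  have hne : Nonempty (G ⧸ C) := ⟨((1 : G) : G ⧸ C)⟩
  obtain ⟨e, he⟩ := exists_surjective_nat (G ⧸ C)
  obtain ⟨s, a, hs, ha⟩ := comm_main (T := T) (X := X) (Y := Ωᶜ) hΩopen.isClosed_compl
    ⟨x, (hYiff x).mpr hinf⟩ (by
      intro t y hy
      rw [hYiff] at hy ⊢
      rwa [MulAction.orbit_smul]) hYinf
    (fun n => {y | ∃ c ∈ C, c • (e n).out⁻¹ • x = y}) (by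
      intro y _
      obtain ⟨g, rfl⟩ := htr x y
      obtain ⟨n, hn⟩ := he ((g⁻¹ : G) : G ⧸ C)
      have hmem : (e n).out⁻¹ * g⁻¹ ∈ C := by
        rw [← QuotientGroup.eq, QuotientGroup.out_eq', hn]
      refine mem_iUnion.mpr ⟨n, _, C.inv_mem hmem, ?_⟩
      rw [smul_smul]
      congr 1
      group) (by
      rintro n _ ⟨c, hc, rfl⟩ _ ⟨c', hc', rfl⟩
      obtain ⟨L, hL, hcL⟩ := hcomm (c' * c⁻¹) (C.mul_mem hc' (C.inv_mem hc))
      refine ⟨fun z => (c' * c⁻¹) • z, continuous_const_smul _, ?_, L, hL, hcL⟩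
      show (c' * c⁻¹) • c • (e n).out⁻¹ • x = c' • (e n).out⁻¹ • x
      rw [mul_smul, inv_smul_smul])
  exact ⟨s, a, hs, ha⟩

end Helper75.Conv
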