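import Pool.Agent.Helper75.Conv.OLift

/-! A group of homeomorphisms of a compact Hausdorff space and a point `x` such that all points of
its orbit closure that are proximal to `x` have infinite orbits and fall into countably many
classes, any two points of a class being related by a continuous map of the orbit closure that
commutes with a subgroup of finite index: then the orbit closure of `x` contains an injective
convergent sequence. -/

namespace Helper75.Conv

open Topology Filter Set Helper77.Distal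

variable {X : Type*} [TopologicalSpace X] [CompactSpace X] [T2Space X]

section acc

variable {T : Type*} [Group T] [MulAction T X] [ContinuousConstSMul T X]

/-- An almost periodic point with an infinite orbit is a limit point of its orbit. -/
theorem mem_closure_sdiff {I : Set (X → X)} (hI : IsMinIdeal T I) {u : X → X} (hu : u ∈ I)
    {x : X} (hux : u x = x) (hinf : (MulAction.orbit T x).Infinite) :
    x ∈ closure (MulAction.orbit T x \ {x}) := by
  obtain ⟨z, -, hz⟩ := hinf.exists_accPt_of_subset_isCompact isCompact_univ (subset_univ _)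
  have hzc : z ∈ closure (MulAction.orbit T x) := mem_closure_iff_clusterPt.mpr hz.clusterPt
  obtain ⟨p, hp, hpz⟩ := exists_of_mem_closure hzc
  obtain ⟨q, hq, hqp⟩ := hI.solve (p ∘ u) (hI.left p hp u hu) u hu
  have hqz : q z = x := by
    have h1 : q (p (u x)) = u x := congrFun hqp x
    rw [hux, hpz] at h1
    exact h1
  rw [mem_closure_iff]
  intro O hO hxO
  have h1 : {r : X → X | r z ∈ O} ∈ 𝓝 q :=
    (continuous_apply z).continuousAt.preimage_mem_nhds (by
      show O ∈ 𝓝 (q z)
      rw [hqz]; exact hO.mem_nhds hxO)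
  obtain ⟨_, hrO, ⟨d, rfl⟩⟩ := mem_closure_iff_nhds.mp (hI.sub hq) _ h1
  have hdz : d • z ∈ O := hrO
  have h2 : (fun y : X => d • y) ⁻¹' O ∈ 𝓝 z :=
    (continuous_const_smul d).continuousAt.preimage_mem_nhds (hO.mem_nhds hdz)
  rw [accPt_iff_nhds] at hz
  obtain ⟨y1, ⟨hy1, ho1⟩, hne1⟩ := hz _ h2
  obtain ⟨y2, ⟨hy2, ho2⟩, hne2⟩ := hz ((fun y : X => d • y) ⁻¹' O ∩ {y1}ᶜ)
    (inter_mem h2 (isOpen_compl_singleton.mem_nhds (Ne.symm hne1)))
  have hne : y2 ≠ y1 := hy2.2
  have hor : ∀ y ∈ MulAction.orbit T x, d • y ∈ MulAction.orbit T x := by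
    rintro _ ⟨e, rfl⟩
    exact ⟨d * e, mul_smul d e x⟩
  by_cases hx1 : d • y1 = x
  · refine ⟨d • y2, hy2.1, hor _ ho2, fun h => hne ?_⟩
    have : d • y2 = d • y1 := by rw [hx1]; exact h
    exact smul_left_cancel d this
  · exact ⟨d • y1, hy1, hor _ ho1, hx1⟩

/-- An idempotent of the enveloping semigroup commutes with every continuous map on an orbit
closure that commutes with a subgroup of finite index. -/
theorem idem_comm {L : Subgroup T} [L.FiniteIndex] {θ : X → X} {x : X}
    (hθ : ContinuousOn θ (closure (MulAction.orbit T x)))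
    (hcomm : ∀ t ∈ L, ∀ z ∈ closure (MulAction.orbit T x), θ (t • z) = t • θ z)
    {w : X → X} (hw : w ∈ E X T) (hww : w ∘ w = w)
    {z : X} (hz : z ∈ closure (MulAction.orbit T x)) : w (θ z) = θ (w z) := by
  let A : T ⧸ L.normalCore → Set (X → X) := fun q =>
    closure {p | ∃ t : T, (t : T ⧸ L.normalCore) = q ∧ p = fun y => t • y}
  have hfin : Finite (T ⧸ L.normalCore) := Subgroup.finite_quotient_of_finiteIndex
  have hcov : E X T ⊆ ⋃ q, A q := by
    refine closure_minimal ?_ (isClosed_iUnion_of_finite fun q => isClosed_closure)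
    rintro _ ⟨t, rfl⟩
    exact mem_iUnion.mpr ⟨t, subset_closure ⟨t, rfl, rfl⟩⟩
  have hmul : ∀ q q' : T ⧸ L.normalCore, ∀ p ∈ A q, ∀ p' ∈ A q', p ∘ p' ∈ A (q * q') := by
    intro q q' p hp p' hp'
    have h1 : A q ⊆ (fun p : X → X => p ∘ p') ⁻¹' A (q * q') := by
      refine closure_minimal ?_ (isClosed_closure.preimage (continuous_comp_right p'))
      rintro _ ⟨t, rfl, rfl⟩
      have h2 : A q' ⊆ (fun r : X → X => fun y => t • r y) ⁻¹' A ((t : T ⧸ L.normalCore) * q') := by
        refine closure_minimal ?_ (isClosed_closure.preimage (continuous_smul_comp t))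
        rintro _ ⟨t', rfl, rfl⟩
        refine subset_closure ⟨t * t', rfl, ?_⟩
        funext y
        exact (mul_smul t t' y).symm
      exact h2 hp'
    exact h1 hp
  obtain ⟨q, hq⟩ := mem_iUnion.mp (hcov hw)
  have hpow : ∀ n : ℕ, w ∈ A (q ^ (n + 1)) := by
    intro n
    induction n with
    | zero => rwa [zero_add, pow_one]
    | succ n ih =>
      have := hmul _ _ _ ih _ hq
      rwa [hww, ← pow_succ] at this
  have h1 : w ∈ A 1 := by
    have h2 := hpow (Nat.card (T ⧸ L.normalCore) - 1)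
    rwa [Nat.sub_add_cancel Nat.card_pos, pow_card_eq_one'] at h2
  -- the commuting elements form a closed subset of the enveloping semigroup
  have hEz : ∀ p ∈ E X T, p z ∈ closure (MulAction.orbit T x) := by
    intro p hp
    obtain ⟨q, hq, rfl⟩ := exists_of_mem_closure hz
    exact apply_mem_closure (comp_mem hp hq) x
  have hcl : IsClosed {p : E X T | p.1 (θ z) = θ (p.1 z)} := by
    refine isClosed_eq ((continuous_apply _).comp continuous_subtype_val) ?_
    exact hθ.comp_continuous ((continuous_apply z).comp continuous_subtype_val)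
      fun p => hEz p.1 p.2
  have hcl' : IsClosed (Subtype.val '' {p : E X T | p.1 (θ z) = θ (p.1 z)}) :=
    (isClosed_closure.isClosedEmbedding_subtypeVal).isClosedMap _ hcl
  have h3 : A 1 ⊆ Subtype.val '' {p : E X T | p.1 (θ z) = θ (p.1 z)} := by
    refine closure_minimal ?_ hcl'
    rintro _ ⟨t, ht, rfl⟩
    have htL : t ∈ L := L.normalCore_le ((QuotientGroup.eq_one_iff t).mp ht)
    exact ⟨⟨_, smul_mem_E t⟩, (hcomm t htL z hz).symm, rfl⟩
  obtain ⟨p, hp, hpw⟩ := h3 h1
  rw [← hpw]
  exact hp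

end acc

/-- If a subgroup of finite index has a finite orbit, the whole orbit is finite. -/
theorem finite_orbit_of_finiteIndex {T : Type*} [Group T] {X : Type*} [MulAction T X]
    {L : Subgroup T} [L.FiniteIndex] (b : X) (h : {z | ∃ t ∈ L, t • b = z}.Finite) :
    (MulAction.orbit T b).Finite := by
  have hfin : Finite (T ⧸ L) := Subgroup.finite_quotient_of_finiteIndex
  refine (finite_iUnion fun q : T ⧸ L => h.image fun z => q.out • z).subset ?_
  rintro _ ⟨g, rfl⟩
  refine mem_iUnion.mpr ⟨(g : T ⧸ L), (((g : T ⧸ L).out)⁻¹ * g) • b, ⟨_, ?_, rfl⟩, ?_⟩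
  · rw [← QuotientGroup.eq, QuotientGroup.out_eq']
  · show ((g : T ⧸ L).out) • (((g : T ⧸ L).out)⁻¹ * g) • b = g • b
    rw [smul_smul, mul_inv_cancel_left]

/-- The case of a countable group `T`. -/
theorem cell_countable {T : Type*} [Group T] [MulAction T X] [ContinuousConstSMul T X]
    [Countable T] {x : X}
    (hinf : ∀ y ∈ closure (MulAction.orbit T x), Prox T x y → (MulAction.orbit T y).Infinite)
    (f : X → ℕ)
    (hf : ∀ y ∈ closure (MulAction.orbit T x), ∀ y' ∈ closure (MulAction.orbit T x),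
      Prox T x y → Prox T x y' → f y = f y' →
      ∃ θ : X → X, ContinuousOn θ (closure (MulAction.orbit T x)) ∧ θ y = y' ∧
        ∃ L : Subgroup T, L.FiniteIndex ∧
          ∀ t ∈ L, ∀ z ∈ closure (MulAction.orbit T x), θ (t • z) = t • θ z) :
    ∃ (s : ℕ → X) (a : X), Function.Injective s ∧
      (∀ n, s n ∈ closure (MulAction.orbit T x)) ∧ Tendsto s atTop (𝓝 a) := by
  obtain ⟨I, hI⟩ := exists_minIdeal X T
  obtain ⟨u, hu, huu⟩ := hI.exists_idem
  have hclo : ∀ y ∈ closure (MulAction.orbit T x), closure (MulAction.orbit T y) ⊆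
      closure (MulAction.orbit T x) := by
    intro y hy z hz
    obtain ⟨p, hp, rfl⟩ := exists_of_mem_closure hy
    obtain ⟨q, hq, rfl⟩ := exists_of_mem_closure hz
    exact apply_mem_closure (comp_mem hq hp) x
  obtain ⟨x', hxdef⟩ : ∃ x', x' = u x := ⟨_, rfl⟩
  have hux : u x' = x' := by rw [hxdef]; exact congrFun huu x
  have hx' : x' ∈ closure (MulAction.orbit T x) := by
    rw [hxdef]; exact apply_mem_closure (hI.sub hu) x
  -- all idempotent translates of `x'` are idempotent translates of `x`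
  have hw' : ∀ w ∈ I, w x' = w x := by
    intro w hw
    rw [hxdef]
    exact congrFun (hI.comp_idem hu huu hw) x
  have hcl : ∀ w ∈ I, w x' ∈ closure (MulAction.orbit T x) := by
    intro w hw
    rw [hw' w hw]
    exact apply_mem_closure (hI.sub hw) x
  have hcell : ∀ w ∈ I, w ∘ w = w → Prox T x (w x') := by
    intro w hw hww
    rw [hw' w hw]
    exact prox_of_idem (hI.sub hw) hww x
  have hxacc := mem_closure_sdiff hI hu hux (by
    have := hinf _ (hcl u hu) (hcell u hu huu)
    rwa [hux] at this)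
  let D : Set X := {y | ∃ w ∈ I, w ∘ w = w ∧ w x' = y}
  have hD : D.Countable := by
    rw [countable_iff_exists_injOn]
    refine ⟨f, ?_⟩
    rintro _ ⟨w, hw, hww, rfl⟩ _ ⟨w', hw', hww', rfl⟩ hff
    obtain ⟨θ, hθ, hθy, L, hL, hcomm⟩ := hf _ (hcl w hw) _ (hcl w' hw') (hcell w hw hww)
      (hcell w' hw' hww') hff
    have h3 : w (w' x') = w x' := congrFun (hI.comp_idem hw' hww' hw) x'
    have h4 : w (θ (w x')) = θ (w (w x')) := idem_comm hθ hcomm (hI.sub hw) hww (hcl w hw)
    have h5 : w (w x') = w x' := congrFun hww x'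
    rw [h5, hθy, h3] at h4
    exact h4
  -- functions that separate them from `x'`
  have hsep : ∀ z : X, ∃ k : C(X, ℝ), z ≠ x' → k z ≠ k x' := by
    intro z
    by_cases h : z = x'
    · exact ⟨0, fun h' => absurd h h'⟩
    · obtain ⟨k, hk0, hk1, -⟩ := exists_continuous_zero_one_of_isClosed
        (isClosed_singleton (x := x')) (isClosed_singleton (x := z)) (by
          rw [disjoint_left]
          intro a ha ha'
          have h1 : a = x' := ha
          have h2 : a = z := ha'
          exact h (h2.symm.trans h1))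
      refine ⟨k, fun _ => ?_⟩
      rw [hk1 rfl, show k x' = 0 from hk0 rfl]
      exact one_ne_zero
  choose k hk using hsep
  obtain ⟨s, hs1, hs2, hs3⟩ := seq_of_op (T := T) hxacc (hD.image k)
    (op_of_ideal hI hu huu hux (fun w hw hww heq => by
      by_contra hne
      exact hk (w x') hne (heq _ ⟨w x', ⟨w, hw, hww, rfl⟩, rfl⟩)))
  exact ⟨s, x', hs1, fun n => hclo x' hx' (hs2 n), hs3⟩

/-- **Theorem A.** -/
theorem cell_main {T : Type*} [Group T] [MulAction T X] [ContinuousConstSMul T X] {x : X}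
    (hinf : ∀ y ∈ closure (MulAction.orbit T x), Prox T x y → (MulAction.orbit T y).Infinite)
    (f : X → ℕ)
    (hf : ∀ y ∈ closure (MulAction.orbit T x), ∀ y' ∈ closure (MulAction.orbit T x),
      Prox T x y → Prox T x y' → f y = f y' →
      ∃ θ : X → X, ContinuousOn θ (closure (MulAction.orbit T x)) ∧ θ y = y' ∧
        ∃ L : Subgroup T, L.FiniteIndex ∧
          ∀ t ∈ L, ∀ z ∈ closure (MulAction.orbit T x), θ (t • z) = t • θ z) :
    ∃ (s : ℕ → X) (a : X), Function.Injective s ∧
      (∀ n, s n ∈ closure (MulAction.orbit T x)) ∧ Tendsto s atTop (𝓝 a) := by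
  -- in every class choose a point, and infinitely many elements that move it apart
  have hch : ∀ n, ∃ (b : X) (t : ℕ → T),
      (∃ y ∈ closure (MulAction.orbit T x), Prox T x y ∧ f y = n) →
      (b ∈ closure (MulAction.orbit T x) ∧ Prox T x b ∧ f b = n) ∧
        Function.Injective fun i => t i • b := by
    intro n
    by_cases h : ∃ y ∈ closure (MulAction.orbit T x), Prox T x y ∧ f y = n
    · obtain ⟨b, hb1, hb2, hb3⟩ := h
      have hi := hinf b hb1 hb2
      have hmem : ∀ i, ∃ t : T, t • b = (hi.natEmbedding _ i : X) := fun i =>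
        (hi.natEmbedding _ i).2
      choose t ht using hmem
      refine ⟨b, t, fun _ => ⟨⟨hb1, hb2, hb3⟩, fun i j hij => ?_⟩⟩
      have h1 : t i • b = t j • b := hij
      rw [ht, ht] at h1
      exact (hi.natEmbedding _).injective (Subtype.ext h1)
    · exact ⟨x, fun _ => 1, fun h' => absurd h' h⟩
  choose b t ht using hch
  -- the free group on the chosen elements acts
  let φ : FreeGroup (ℕ × ℕ) →* T := FreeGroup.lift fun a => t a.1 a.2
  let _ : MulAction (FreeGroup (ℕ × ℕ)) X := MulAction.compHom X φ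
  have hact : ∀ (g : FreeGroup (ℕ × ℕ)) (y : X), g • y = φ g • y := fun _ _ => rfl
  have : ContinuousConstSMul (FreeGroup (ℕ × ℕ)) X :=
    ⟨fun g => continuous_const_smul (φ g)⟩
  have : Countable (FreeGroup (ℕ × ℕ)) := by
    unfold FreeGroup
    infer_instance
  have horb : MulAction.orbit (FreeGroup (ℕ × ℕ)) x ⊆ MulAction.orbit T x := by
    rintro _ ⟨g, rfl⟩
    exact ⟨φ g, rfl⟩
  have hprox : ∀ y, Prox (FreeGroup (ℕ × ℕ)) x y → Prox T x y := by
    rintro y ⟨z, hz⟩
    refine ⟨z, closure_mono ?_ hz⟩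
    rintro _ ⟨g, rfl⟩
    exact ⟨φ g, rfl⟩
  have hcomap : ∀ L : Subgroup T, L.FiniteIndex → (L.comap φ).FiniteIndex := by
    intro L hL
    refine ⟨fun h0 => ?_⟩
    rw [Subgroup.index_comap] at h0
    exact (inferInstance : (L.subgroupOf φ.range).FiniteIndex).index_ne_zero h0
  obtain ⟨s, a, hs1, hs2, hs3⟩ := cell_countable (T := FreeGroup (ℕ × ℕ)) (x := x) (by
    intro y hy hpy hfin
    have hy' := closure_mono horb hy
    obtain ⟨⟨hb1, hb2, hb3⟩, hinj⟩ := ht (f y) ⟨y, hy', hprox y hpy, rfl⟩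
    obtain ⟨θ, -, hθy, L, hL, hcomm⟩ := hf y hy' (b (f y)) hb1 (hprox y hpy) hb2 hb3.symm
    have hLf := hcomap L hL
    have h1 : {z | ∃ g ∈ L.comap φ, g • b (f y) = z}.Finite := by
      refine (hfin.image θ).subset ?_
      rintro _ ⟨g, hg, rfl⟩
      refine ⟨g • y, ⟨g, rfl⟩, ?_⟩
      rw [hact, hcomm (φ g) hg y hy', hθy, hact]
    have h2 := finite_orbit_of_finiteIndex (b (f y)) h1
    refine infinite_of_injective_forall_mem
      (s := MulAction.orbit (FreeGroup (ℕ × ℕ)) (b (f y))) hinj ?_ h2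
    intro i
    refine ⟨FreeGroup.of (f y, i), ?_⟩
    show φ (FreeGroup.of (f y, i)) • b (f y) = _
    rw [FreeGroup.lift_apply_of]) f (by
    intro y hy y' hy' hpy hpy' hff
    obtain ⟨θ, hθ, hθy, L, hL, hcomm⟩ := hf y (closure_mono horb hy) y' (closure_mono horb hy')
      (hprox y hpy) (hprox y' hpy') hff
    exact ⟨θ, hθ.mono (closure_mono horb), hθy, L.comap φ, hcomap L hL,
      fun g hg z hz => hcomm (φ g) hg z (closure_mono horb hz)⟩)
  exact ⟨s, a, hs1, fun n => closure_mono horb (hs2 n), hs3⟩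

/-- Theorem A for a closed invariant set without finite orbits. -/
theorem comm_main {T : Type*} [Group T] [MulAction T X] [ContinuousConstSMul T X]
    {Y : Set X} (hYc : IsClosed Y) (hYn : Y.Nonempty) (hYT : ∀ (t : T), ∀ y ∈ Y, t • y ∈ Y)
    (hinf : ∀ y ∈ Y, (MulAction.orbit T y).Infinite) (O : ℕ → Set X) (hcov : Y ⊆ ⋃ n, O n)
    (hO : ∀ n, ∀ y ∈ O n, ∀ y' ∈ O n, ∃ θ : X → X, Continuous θ ∧ θ y = y' ∧
      ∃ L : Subgroup T, L.FiniteIndex ∧ ∀ t ∈ L, ∀ z, θ (t • z) = t • θ z) :
    ∃ (s : ℕ → X) (a : X), Function.Injective s ∧ Tendsto s atTop (𝓝 a) := by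
  obtain ⟨x, hx⟩ := hYn
  have hclo : closure (MulAction.orbit T x) ⊆ Y :=
    closure_minimal (by rintro _ ⟨t, rfl⟩; exact hYT t x hx) hYc
  have hcov' : ∀ y, ∃ n, y ∈ Y → y ∈ O n := by
    intro y
    by_cases hy : y ∈ Y
    · obtain ⟨n, hn⟩ := mem_iUnion.mp (hcov hy)
      exact ⟨n, fun _ => hn⟩
    · exact ⟨0, fun h => absurd h hy⟩
  choose f hf using hcov'
  obtain ⟨s, a, hs1, -, hs3⟩ := cell_main (T := T) (x := x) (fun y hy _ => hinf y (hclo hy)) f (by
    intro y hy y' hy' _ _ hff
    have h1 := hf y (hclo hy)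
    have h2 := hf y' (hclo hy')
    rw [← hff] at h2
    obtain ⟨θ, hθ, hθy, L, hL, hcomm⟩ := hO _ y h1 y' h2
    exact ⟨θ, hθ.continuousOn, hθy, L, hL, fun t ht z _ => hcomm t ht z⟩)
  exact ⟨s, a, hs1, hs3⟩

end Helper75.Conv
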