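import Pool.Agent.Helper77.Distal.Lift

/-! Minimal left ideals of the enveloping semigroup, and the key property (OP): if the idempotents
of ONE minimal left ideal do not move `x` inside its class for the functions in `F0`, then every
invariant quotient above `F0` is open at `x`. -/

namespace Helper75.Conv

open Topology Filter Set Helper77.Distal

variable {X : Type*} [TopologicalSpace X] [CompactSpace X] [T2Space X]
variable {T : Type*} [Monoid T] [MulAction T X] [ContinuousConstSMul T X]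

/-- `I` is a minimal left ideal of the enveloping semigroup of `T`. -/
structure IsMinIdeal (T : Type*) [Monoid T] [MulAction T X] [ContinuousConstSMul T X]
    (I : Set (X → X)) : Prop where
  closed : IsClosed I
  nonempty : I.Nonempty
  sub : I ⊆ E X T
  left : ∀ p ∈ E X T, ∀ q ∈ I, p ∘ q ∈ I
  solve : ∀ s ∈ I, ∀ q ∈ I, ∃ r ∈ I, r ∘ s = q

variable (X T) in
theorem exists_minIdeal : ∃ I : Set (X → X), IsMinIdeal T I := by
  let S : Set (Set (X → X)) :=
    {N | IsClosed N ∧ N.Nonempty ∧ N ⊆ E X T ∧ ∀ p ∈ E X T, ∀ q ∈ N, p ∘ q ∈ N}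
  have hE : E X T ∈ S :=
    ⟨isClosed_closure, ⟨_, smul_mem_E 1⟩, subset_rfl, fun p hp q hq => comp_mem hp hq⟩
  obtain ⟨I, -, hI⟩ := zorn_superset_nonempty S (by
    intro c hcS hc hne
    have hne' : Nonempty c := hne.to_subtype
    have hint : (⋂ N : c, (N : Set (X → X))).Nonempty := by
      refine IsCompact.nonempty_iInter_of_directed_nonempty_isCompact_isClosed
        (fun N : c => (N : Set (X → X))) ?_ ?_ ?_ ?_
      · rintro ⟨A, hA⟩ ⟨B, hB⟩
        rcases hc.total hA hB with h | h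
        · exact ⟨⟨A, hA⟩, subset_rfl, h⟩
        · exact ⟨⟨B, hB⟩, h, subset_rfl⟩
      · exact fun N => (hcS N.2).2.1
      · exact fun N => isCompact_E.of_isClosed_subset (hcS N.2).1 (hcS N.2).2.2.1
      · exact fun N => (hcS N.2).1
    refine ⟨⋂ N : c, (N : Set (X → X)), ⟨isClosed_iInter fun N => (hcS N.2).1, hint, ?_, ?_⟩, ?_⟩
    · obtain ⟨A, hA⟩ := hne
      exact (iInter_subset (fun N : c => (N : Set (X → X))) ⟨A, hA⟩).trans (hcS hA).2.2.1
    · intro p hp q hq
      rw [mem_iInter] at hq ⊢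
      exact fun N => (hcS N.2).2.2.2 p hp q (hq N)
    · intro A hA
      exact iInter_subset (fun N : c => (N : Set (X → X))) ⟨A, hA⟩) (E X T) hE
  have hIS : I ∈ S := hI.prop
  obtain ⟨h1, h2, h3, h4⟩ := hIS
  refine ⟨I, h1, h2, h3, h4, ?_⟩
  intro s hs q hq
  have hsub : (fun r : X → X => r ∘ s) '' I ⊆ I := by
    rintro _ ⟨r, hr, rfl⟩
    exact h4 r (h3 hr) s hs
  have hmem : (fun r : X → X => r ∘ s) '' I ∈ S := by
    refine ⟨?_, h2.image _, hsub.trans h3, ?_⟩
    · exact ((isCompact_E.of_isClosed_subset h1 h3).image (continuous_comp_right s)).isClosed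
    · rintro p hp _ ⟨r, hr, rfl⟩
      exact ⟨p ∘ r, h4 p hp r hr, rfl⟩
  have hle := hI.le_of_le hmem hsub
  obtain ⟨r, hr, hrq⟩ := hle hq
  exact ⟨r, hr, hrq⟩

theorem IsMinIdeal.exists_idem {I : Set (X → X)} (hI : IsMinIdeal T I) :
    ∃ u ∈ I, u ∘ u = u :=
  Helper77.Distal.exists_idem I hI.nonempty (isCompact_E.of_isClosed_subset hI.closed hI.sub)
    fun p hp q hq => hI.left p (hI.sub hp) q hq

/-- Idempotents of a minimal left ideal are right identities of it. -/
theorem IsMinIdeal.comp_idem {I : Set (X → X)} (hI : IsMinIdeal T I) {u : X → X} (hu : u ∈ I)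
    (huu : u ∘ u = u) {s : X → X} (hs : s ∈ I) : s ∘ u = s := by
  obtain ⟨t, -, rfl⟩ := hI.solve u hu s hs
  rw [Function.comp_assoc, huu]

/-- For every invariant set of functions `F` that contains `F0` and every `p` that fixes the class
of `x`, some point of that class is mapped to `x` by `p`. -/
def OP (T : Type*) [Monoid T] [MulAction T X] [ContinuousConstSMul T X]
    (F0 : Set C(X, ℝ)) (x : X) : Prop :=
  ∀ F : Set C(X, ℝ), Inv T F → F0 ⊆ F → ∀ p ∈ E X T, Eqv F (p x) x →
    ∃ q ∈ E X T, Eqv F (q x) x ∧ p (q x) = x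

theorem OP.mono {F0 F1 : Set C(X, ℝ)} {x : X} (h : OP T F0 x) (hs : F0 ⊆ F1) : OP T F1 x :=
  fun F hF hF1 => h F hF (hs.trans hF1)

theorem op_of_ideal {I : Set (X → X)} (hI : IsMinIdeal T I) {u : X → X} (hu : u ∈ I)
    (huu : u ∘ u = u) {x : X} (hux : u x = x) {F0 : Set C(X, ℝ)}
    (h0 : ∀ w ∈ I, w ∘ w = w → Eqv F0 (w x) x → w x = x) : OP T F0 x := by
  intro F hF hsub p hp hpx
  have hs : p ∘ u ∈ I := hI.left p hp u hu
  have hsu : (p ∘ u) ∘ u = p ∘ u := hI.comp_idem hu huu hs
  obtain ⟨r, hr, hrs⟩ := hI.solve _ hs u hu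
  have hrs' : ∀ y, r (p (u y)) = u y := fun y => congrFun hrs y
  have hw : (p ∘ u) ∘ r ∈ I := hI.left _ (hI.sub hs) r hr
  have hww : ((p ∘ u) ∘ r) ∘ ((p ∘ u) ∘ r) = (p ∘ u) ∘ r := by
    funext y
    simp only [Function.comp_apply]
    rw [hrs']
    exact congrArg p (congrFun huu (r y))
  have hqE : u ∘ r ∈ E X T := hI.sub (hI.left u (hI.sub hu) r hr)
  -- the class of `q x`
  have h1 : Eqv F x (r x) := by
    have := hpx.app hF (hI.sub hr)
    have h2 : r (p x) = x := by
      have := hrs' x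
      rwa [hux] at this
    rw [h2] at this
    exact this
  have h2 : Eqv F (u (r x)) x := by
    have := h1.app hF (hI.sub hu)
    rw [hux] at this
    exact fun g hg => (this g hg).symm
  refine ⟨u ∘ r, hqE, h2, ?_⟩
  have h3 : Eqv F (p (u (r x))) x := fun g hg => (h2.app hF hp g hg).trans (hpx g hg)
  exact h0 _ hw hww fun g hg => h3 g (hsub hg)

end Helper75.Conv
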