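import Pool.Agent.Helper77.Distal.Tower
import Pool.Agent.Helper75.Conv.Ideal

/-! Lifting of convergent sequences at a point with property (OP). The proofs follow those of
Helper77/Distal (Lift, Tower, Core), with (OP) in place of relative distality. -/

namespace Helper75.Conv

open Topology Filter Set Helper77.Distal

variable {X : Type*} [TopologicalSpace X] [CompactSpace X] [T2Space X]
variable {T : Type*} [Monoid T] [MulAction T X] [ContinuousConstSMul T X]

/-- The quotient map by an invariant family of functions is open at `x`. -/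
theorem open_at {x : X} {F0 F : Set C(X, ℝ)} (hd : OP T F0 x) (hF : Inv T F) (hsub : F0 ⊆ F)
    {w : ℕ → X} (hw : ∀ n, w n ∈ closure (MulAction.orbit T x))
    (hlim : ∀ g ∈ F, Tendsto (fun n => g (w n)) atTop (𝓝 (g x)))
    {O : Set X} (hO : IsOpen O) (hxO : x ∈ O) :
    ∀ᶠ n in atTop, ∃ y ∈ O, y ∈ closure (MulAction.orbit T x) ∧ Eqv F y (w n) := by
  by_contra hcon
  rw [not_eventually] at hcon
  rw [frequently_iff_neBot] at hcon
  let U : Ultrafilter ℕ := @Ultrafilter.of _ _ hcon
  have hU : (U : Filter ℕ) ≤ atTop ⊓ 𝓟 {n | ¬ ∃ y ∈ O, y ∈ closure (MulAction.orbit T x) ∧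
      Eqv F y (w n)} := @Ultrafilter.of_le _ _ hcon
  have hU1 : (U : Filter ℕ) ≤ atTop := hU.trans inf_le_left
  have hU2 : ∀ᶠ n in (U : Filter ℕ), ¬ ∃ y ∈ O, y ∈ closure (MulAction.orbit T x) ∧
      Eqv F y (w n) := by
    have := hU.trans inf_le_right
    exact le_principal_iff.mp this
  choose p hp hpx using fun n => exists_of_mem_closure (hw n)
  obtain ⟨P, hP, hPlim⟩ := (isCompact_E (X := X) (T := T)).ultrafilter_le_nhds (U.map p) (by
    rw [le_principal_iff]
    exact Filter.Eventually.of_forall (f := (U : Filter ℕ)) (p := fun n => p n ∈ E X T) hp)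
  have hPt : Tendsto p (U : Filter ℕ) (𝓝 P) := hPlim
  have hev : ∀ y : X, Tendsto (fun n => p n y) (U : Filter ℕ) (𝓝 (P y)) := fun y =>
    ((continuous_apply y).tendsto P).comp hPt
  have hEq : Eqv F (P x) x := by
    intro g hg
    have h1 : Tendsto (fun n => g (w n)) (U : Filter ℕ) (𝓝 (g (P x))) := by
      have := (g.continuous.tendsto _).comp (hev x)
      refine this.congr fun n => ?_
      simp only [Function.comp_apply, hpx]
    exact tendsto_nhds_unique h1 ((hlim g hg).mono_left hU1)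
  obtain ⟨q, hq, hqx, hq2⟩ := hd F hF hsub P hP hEq
  have hin : ∀ᶠ n in (U : Filter ℕ), p n (q x) ∈ O := by
    have h := hev (q x)
    rw [hq2] at h
    exact h (hO.mem_nhds hxO)
  obtain ⟨n, hn1, hn2⟩ := (hin.and hU2).exists
  refine hn2 ⟨p n (q x), hn1, ?_, ?_⟩
  · exact apply_mem_closure (comp_mem (hp n) hq) x
  · have h1 : Eqv F (p n (q x)) (p n x) := hqx.app hF (hp n)
    intro g hg
    rw [h1 g hg, hpx]

/-- One more function (with its translates) can be made to converge. -/
theorem lift_one [Countable T] {x : X} {F0 F : Set C(X, ℝ)} (hd : OP T F0 x) (hF : Inv T F)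
    (hsub : F0 ⊆ F) {w : ℕ → X} (hw : ∀ n, w n ∈ closure (MulAction.orbit T x))
    (hlim : ∀ g ∈ F, Tendsto (fun n => g (w n)) atTop (𝓝 (g x))) (g : C(X, ℝ)) :
    ∃ v : ℕ → X, (∀ n, v n ∈ closure (MulAction.orbit T x)) ∧ (∀ n, Eqv F (v n) (w n)) ∧
      ∀ t : T, Tendsto (fun n => tr t g (v n)) atTop (𝓝 (tr t g x)) := by
  set G : X → (T → ℝ) := fun y t => tr t g y with hG
  have hGc : Continuous G := continuous_pi fun t => (tr t g).continuous
  obtain ⟨v, hv1, hv2⟩ := diag (X := X) (l := comap G (𝓝 (G x)))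
    (P := fun n y => y ∈ closure (MulAction.orbit T x) ∧ Eqv F y (w n))
    (fun n => ⟨w n, hw n, fun _ _ => rfl⟩) (by
      rintro O ⟨V, hV, hVO⟩
      obtain ⟨V', hV', hVo, hxV⟩ := mem_nhds_iff.mp hV
      filter_upwards [open_at hd hF hsub hw hlim (hVo.preimage hGc) hxV] with n hn
      obtain ⟨y, hy1, hy2, hy3⟩ := hn
      exact ⟨y, hVO (hV' hy1), hy2, hy3⟩)
  refine ⟨v, fun n => (hv1 n).1, fun n => (hv1 n).2, fun t => ?_⟩
  have h1 : Tendsto (fun n => G (v n)) atTop (𝓝 (G x)) := tendsto_comap_iff.mp hv2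
  exact (tendsto_pi_nhds.mp h1) t

/-- A sequence that converges to `x` modulo the invariant set `F0` lifts to a convergent
sequence. -/
theorem lift_all [Countable T] {x : X} {F0 : Set C(X, ℝ)} (hd : OP T F0 x) (hF : Inv T F0)
    {w0 : ℕ → X} (hw : ∀ n, w0 n ∈ closure (MulAction.orbit T x))
    (hlim : ∀ g ∈ F0, Tendsto (fun n => g (w0 n)) atTop (𝓝 (g x))) :
    ∃ v : ℕ → X, (∀ n, v n ∈ closure (MulAction.orbit T x)) ∧ (∀ n, Eqv F0 (v n) (w0 n)) ∧
      Tendsto v atTop (𝓝 x) := by
  have : Nonempty (Stage T x F0 w0) :=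
    ⟨⟨F0, w0, hF, hw, hlim, subset_rfl, fun _ _ _ => rfl⟩⟩
  obtain ⟨A, hA⟩ := zorn_le_nonempty (α := Stage T x F0 w0) chain_bdd
  have hall : ∀ g : C(X, ℝ), g ∈ A.F := by
    intro g
    obtain ⟨v, hv1, hv2, hv3⟩ := lift_one hd A.inv A.sub A.mem A.lim g
    let B : Stage T x F0 w0 :=
      { F := A.F ∪ range fun t : T => tr t g
        w := v
        inv := by
          rintro h (hh | ⟨s, rfl⟩) t
          · exact Or.inl (A.inv h hh t)
          · refine Or.inr ⟨s * t, ?_⟩
            simp only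
            rw [tr_tr]
        mem := hv1
        lim := by
          rintro h (hh | ⟨s, rfl⟩)
          · refine (A.lim h hh).congr fun n => ?_
            exact (hv2 n h hh).symm
          · exact hv3 s
        sub := A.sub.trans subset_union_left
        base := fun n h hh => (hv2 n h (A.sub hh)).trans (A.base n h hh) }
    have hAB : A ≤ B := ⟨subset_union_left, hv2⟩
    have hBA : B ≤ A := hA hAB
    refine hBA.1 (Or.inr ⟨1, ?_⟩)
    ext y
    simp only [tr_apply, one_smul]
  refine ⟨A.w, A.mem, A.base, ?_⟩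
  rw [tendsto_def]
  intro V hV
  obtain ⟨O, hOV, hO, hxO⟩ := mem_nhds_iff.mp hV
  obtain ⟨g, hg0, hg1, -⟩ := exists_continuous_zero_one_of_isClosed (isClosed_singleton (x := x))
    hO.isClosed_compl (by
      rw [disjoint_left]
      rintro y rfl hy
      exact hy hxO)
  have h := A.lim g (hall g)
  have hgx : g x = 0 := hg0 rfl
  rw [hgx] at h
  have h' : ∀ᶠ n in atTop, g (A.w n) < 1 := h.eventually (gt_mem_nhds one_pos)
  filter_upwards [h'] with n hn
  refine hOV ?_
  by_contra hcon
  have : g (A.w n) = 1 := hg1 hcon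
  rw [this] at hn
  exact lt_irrefl _ hn

/-- A point with property (OP) for a countable invariant family, at which the quotient is not
isolated in its orbit, is the limit of an injective sequence. -/
theorem core [Countable T] {x : X} {ι : Type*} [Countable ι] (g : ι → C(X, ℝ))
    (hF : Inv T (range g)) (hd : OP T (range g) x)
    (hni : ∀ (I : Finset ι) (n : ℕ), ∃ t : T, (∀ i ∈ I, |g i (t • x) - g i x| < 1 / (n + 1)) ∧
      ∃ i, g i (t • x) ≠ g i x) :
    ∃ s : ℕ → X, Function.Injective s ∧ (∀ n, s n ∈ closure (MulAction.orbit T x)) ∧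
      Tendsto s atTop (𝓝 x) := by
  let _ : MetricSpace (ι → ℝ) := TopologicalSpace.metrizableSpaceMetric (ι → ℝ)
  set G : X → (ι → ℝ) := fun y i => g i y with hG
  have hGc : Continuous G := continuous_pi fun i => (g i).continuous
  set φ : X → ℝ := fun y => dist (G y) (G x) with hφ
  have hex : ∀ ε : ℝ, 0 < ε → ∃ y, y ∈ closure (MulAction.orbit T x) ∧ 0 < φ y ∧ φ y < ε := by
    intro ε hε
    obtain ⟨I, u, hu, hsub⟩ := isOpen_pi_iff.mp (Metric.isOpen_ball (x := G x) (ε := ε)) (G x)
      (Metric.mem_ball_self hε)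
    have hN : ∀ᶠ n : ℕ in atTop, ∀ i ∈ I, Metric.ball (G x i) (1 / ((n : ℝ) + 1)) ⊆ u i := by
      rw [Filter.eventually_all_finset]
      intro i hi
      obtain ⟨δ, hδ, hball⟩ := Metric.isOpen_iff.mp (hu i hi).1 _ (hu i hi).2
      have h1 : ∀ᶠ n : ℕ in atTop, 1 / ((n : ℝ) + 1) < δ :=
        (tendsto_one_div_add_atTop_nhds_zero_nat (𝕜 := ℝ)).eventually (gt_mem_nhds hδ)
      filter_upwards [h1] with n hn
      exact (Metric.ball_subset_ball hn.le).trans hball
    obtain ⟨N, hN⟩ := hN.exists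
    obtain ⟨t, ht1, i, hti⟩ := hni I N
    refine ⟨t • x, subset_closure ⟨t, rfl⟩, ?_, ?_⟩
    · rw [hφ]
      refine dist_pos.mpr fun h => hti ?_
      exact congrFun h i
    · have : G (t • x) ∈ Metric.ball (G x) ε := by
        apply hsub
        intro i hi
        refine hN i hi ?_
        rw [Metric.mem_ball, Real.dist_eq]
        exact ht1 i hi
      exact this
  have hneX : Nonempty X := ⟨x⟩
  choose! W hW1 hW2 hW3 using hex
  -- a sequence with strictly decreasing distances
  let st : ℕ → {y : X // y ∈ closure (MulAction.orbit T x) ∧ 0 < φ y} := fun n =>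
    Nat.rec ⟨W 1, hW1 1 one_pos, hW2 1 one_pos⟩ (fun n a =>
      ⟨W (min (φ a.1) (1 / ((n : ℝ) + 1))),
        hW1 _ (lt_min a.2.2 Nat.one_div_pos_of_nat), hW2 _ (lt_min a.2.2 Nat.one_div_pos_of_nat)⟩) n
  have hst : ∀ n, (st (n + 1)).1 = W (min (φ (st n).1) (1 / ((n : ℝ) + 1))) := fun n => rfl
  have hlt : ∀ n, φ (st (n + 1)).1 < min (φ (st n).1) (1 / ((n : ℝ) + 1)) := fun n => by
    rw [hst]
    exact hW3 _ (lt_min (st n).2.2 Nat.one_div_pos_of_nat)
  have hanti : StrictAnti fun n => φ (st n).1 :=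
    strictAnti_nat_of_succ_lt fun n => (hlt n).trans_le (min_le_left _ _)
  have hlim0 : Tendsto (fun n => φ (st (n + 1)).1) atTop (𝓝 0) := by
    refine squeeze_zero (fun n => (st (n + 1)).2.2.le)
      (fun n => ((hlt n).trans_le (min_le_right _ _)).le) ?_
    exact tendsto_one_div_add_atTop_nhds_zero_nat (𝕜 := ℝ)
  have hlim1 : Tendsto (fun n => φ (st n).1) atTop (𝓝 0) :=
    (tendsto_add_atTop_iff_nat (f := fun n => φ (st n).1) 1).mp hlim0
  have hlim2 : Tendsto (fun n => G (st n).1) atTop (𝓝 (G x)) :=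
    tendsto_iff_dist_tendsto_zero.mpr hlim1
  obtain ⟨v, hv1, hv2, hv3⟩ := lift_all hd hF (w0 := fun n => (st n).1)
    (fun n => (st n).2.1) (by
      rintro _ ⟨i, rfl⟩
      exact (tendsto_pi_nhds.mp hlim2) i)
  refine ⟨v, ?_, hv1, hv3⟩
  have hGv : ∀ n, G (v n) = G (st n).1 := fun n => funext fun i => hv2 n (g i) ⟨i, rfl⟩
  intro m n hmn
  apply hanti.injective
  show dist (G (st m).1) (G x) = dist (G (st n).1) (G x)
  rw [← hGv m, ← hGv n, hmn]

/-- A limit point of its countable orbit with property (OP) for a countable family of functions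
is the limit of an injective sequence. -/
theorem seq_of_op [Countable T] {x : X} (hx : x ∈ closure (MulAction.orbit T x \ {x}))
    {F0 : Set C(X, ℝ)} (hc : F0.Countable) (hd : OP T F0 x) :
    ∃ s : ℕ → X, Function.Injective s ∧ (∀ n, s n ∈ closure (MulAction.orbit T x)) ∧
      Tendsto s atTop (𝓝 x) := by
  classical
  -- functions that separate `x` from the other points of its orbit
  have hsep : ∀ t : T, ∃ k : C(X, ℝ), t • x ≠ x → k (t • x) ≠ k x := by
    intro t
    by_cases h : t • x = x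
    · exact ⟨0, fun h' => absurd h h'⟩
    · obtain ⟨k, hk0, hk1, -⟩ := exists_continuous_zero_one_of_isClosed
        (isClosed_singleton (x := x)) (isClosed_singleton (x := t • x)) (by
          rw [disjoint_left]
          intro z hz hz'
          have h1 : z = x := hz
          have h2 : z = t • x := hz'
          exact h (h2.symm.trans h1))
      refine ⟨k, fun _ => ?_⟩
      rw [hk1 rfl, show k x = 0 from hk0 rfl]
      exact one_ne_zero
  choose k hk using hsep
  have hcF : Countable F0 := hc.to_subtype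
  -- all translates of all these functions
  let g : T × (F0 ⊕ T) → C(X, ℝ) := fun a => tr a.1 (Sum.elim (fun f => f.1) k a.2)
  have hF : Inv T (range g) := by
    rintro _ ⟨⟨t, a⟩, rfl⟩ s
    refine ⟨(t * s, a), ?_⟩
    show tr (t * s) _ = tr s (tr t _)
    rw [tr_tr]
  have hsub : F0 ⊆ range g := by
    intro f hf
    refine ⟨(1, Sum.inl ⟨f, hf⟩), ?_⟩
    show tr 1 f = f
    ext y
    rw [tr_apply, one_smul]
  refine core g hF (hd.mono hsub) ?_
  intro I n
  have hO : IsOpen {y : X | ∀ i ∈ I, |g i y - g i x| < 1 / ((n : ℝ) + 1)} := by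
    have : {y : X | ∀ i ∈ I, |g i y - g i x| < 1 / ((n : ℝ) + 1)} =
        ⋂ i ∈ I, {y : X | |g i y - g i x| < 1 / ((n : ℝ) + 1)} := by
      ext y; simp
    rw [this]
    refine isOpen_biInter_finset fun i _ => ?_
    exact isOpen_lt (((g i).continuous.sub continuous_const).abs) continuous_const
  obtain ⟨y, hy, ⟨t, rfl⟩, hyt⟩ := mem_closure_iff.mp hx _ hO (by
    intro i _
    simp only [sub_self, abs_zero]
    exact Nat.one_div_pos_of_nat)
  refine ⟨t, hy, (1, Sum.inr t), ?_⟩
  show tr 1 (k t) (t • x) ≠ tr 1 (k t) x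
  rw [tr_apply, tr_apply, one_smul, one_smul]
  exact hk t hyt

end Helper75.Conv
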