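import Pool.Agent.Helper75.Conv.OLift

/-! The local theorem: one minimal left ideal of the enveloping semigroup is enough. -/

namespace Helper75.Conv

open Topology Filter Set Helper77.Distal

variable {X : Type*} [TopologicalSpace X] [CompactSpace X] [T2Space X]
variable {T : Type*} [Monoid T] [MulAction T X] [ContinuousConstSMul T X]

/-- Minimal left ideals are closed. -/
theorem IsMinIdeal.mk' {I : Set (X → X)} (hsub : I ⊆ E X T)
    (hleft : ∀ p ∈ E X T, ∀ q ∈ I, p ∘ q ∈ I)
    (hmin : ∀ s ∈ I, ∀ q ∈ I, ∃ r ∈ I, r ∘ s = q) {u : X → X} (hu : u ∈ I) :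
    IsMinIdeal T I := by
  refine ⟨?_, ⟨u, hu⟩, hsub, hleft, hmin⟩
  have : I = (fun p : X → X => p ∘ u) '' E X T := by
    ext q
    constructor
    · intro hq
      obtain ⟨r, hr, rfl⟩ := hmin u hu q hq
      exact ⟨r, hsub hr, rfl⟩
    · rintro ⟨p, hp, rfl⟩
      exact hleft p hp u hu
  rw [this]
  exact (isCompact_E.image (continuous_comp_right u)).isClosed

theorem point [Countable T] {I : Set (X → X)} (hI : IsMinIdeal T I) {u : X → X} (hu : u ∈ I)
    (huu : u ∘ u = u) {x : X} (hux : u x = x) (hx : x ∈ closure (MulAction.orbit T x \ {x}))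
    {U : ℕ → Set X} (hU : ∀ n, U n ∈ 𝓝 x)
    (hc : {y | (∃ p ∈ I, p x = y) ∧ (∀ n, y ∈ U n) ∧ ∀ p ∈ I, p y = p x}.Countable) :
    ∃ s : ℕ → X, Function.Injective s ∧ (∀ n, s n ∈ closure (MulAction.orbit T x)) ∧
      Tendsto s atTop (𝓝 x) := by
  -- functions that detect the intersection of the sets `U n`
  have hh : ∀ n, ∃ h : C(X, ℝ), h x = 0 ∧ (∀ y, h y = 0 → y ∈ U n) := by
    intro n
    obtain ⟨V, hVB, hV, hxV⟩ := mem_nhds_iff.mp (hU n)
    obtain ⟨h, hh0, hh1, -⟩ := exists_continuous_zero_one_of_isClosed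
      (isClosed_singleton (x := x)) hV.isClosed_compl (by
        rw [disjoint_left]
        rintro y rfl hy
        exact hy hxV)
    refine ⟨h, hh0 rfl, fun y hy => ?_⟩
    by_contra hcon
    have : h y = 1 := hh1 (fun hyV => hcon (hVB hyV))
    rw [hy] at this
    exact zero_ne_one this
  choose h hhx hhB using hh
  -- functions that separate the remaining points from `x`
  have hsep : ∀ z : X, ∃ k : C(X, ℝ), z ≠ x → k z ≠ k x := by
    intro z
    by_cases h : z = x
    · exact ⟨0, fun h' => absurd h h'⟩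
    · obtain ⟨k, hk0, hk1, -⟩ := exists_continuous_zero_one_of_isClosed
        (isClosed_singleton (x := x)) (isClosed_singleton (x := z)) (by
          rw [disjoint_left]
          intro a ha ha'
          have h1 : a = x := ha
          have h2 : a = z := ha'
          exact h (h2.symm.trans h1))
      refine ⟨k, fun _ => ?_⟩
      rw [hk1 rfl, show k x = 0 from hk0 rfl]
      exact one_ne_zero
  choose k hk using hsep
  refine seq_of_op (T := T) hx ((countable_range h).union (hc.image k))
    (op_of_ideal hI hu huu hux (fun w hw hww heq => ?_))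
  by_contra hne
  refine hk (w x) hne (heq _ (Or.inr ⟨w x, ⟨⟨w, hw, rfl⟩, ?_, ?_⟩, rfl⟩))
  · intro n
    refine hhB n _ ?_
    rw [heq _ (Or.inl ⟨n, rfl⟩), hhx]
  · intro p hp
    exact congrFun (hI.comp_idem hw hww hp) x

end Helper75.Conv
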