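import Pool.Agent.Helper75.Conv.Point

/-! Let `T` be a countable monoid of continuous self maps of a compact Hausdorff space, `I` a
minimal left ideal of its enveloping semigroup `E`, and `x` a limit point of its own orbit that is
fixed by an idempotent of `I`. If, in some countable intersection of neighbourhoods of `x`, only
countably many points `y` of `I x` satisfy `p y = p x` for all `p` in `I`, then `x` is the limit of
an injective sequence. -/

open Topology in
theorem Pool.Agent.Helper75.Conv.retired_minimalIdeal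
    {X : Type*} [TopologicalSpace X] [CompactSpace X] [T2Space X]
    {T : Type*} [Monoid T] [Countable T] [MulAction T X] [ContinuousConstSMul T X]
    (x : X) (hx : x ∈ closure (MulAction.orbit T x \ {x}))
    (I : Set (X → X)) (hI : I ⊆ closure (Set.range fun (t : T) (y : X) => t • y))
    (hleft : ∀ p ∈ closure (Set.range fun (t : T) (y : X) => t • y), ∀ q ∈ I, p ∘ q ∈ I)
    (hmin : ∀ s ∈ I, ∀ q ∈ I, ∃ r ∈ I, r ∘ s = q)
    (u : X → X) (hu : u ∈ I) (huu : u ∘ u = u) (hux : u x = x)
    (U : ℕ → Set X) (hU : ∀ n, U n ∈ 𝓝 x)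
    (hcount : {y | (∃ p ∈ I, p x = y) ∧ (∀ n, y ∈ U n) ∧ ∀ p ∈ I, p y = p x}.Countable) :
    ∃ s : ℕ → X, Function.Injective s ∧ (∀ n, s n ∈ closure (MulAction.orbit T x)) ∧
      Filter.Tendsto s Filter.atTop (𝓝 x) :=
  _root_.Helper75.Conv.point (_root_.Helper75.Conv.IsMinIdeal.mk' hI hleft hmin hu) hu huu hux hx hU hcount
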