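import Pool.Agent.Helper77.Distal.Central
import Pool.Agent.Helper75.Conv.Baire

/-! Induction along a series of normal subgroups whose factors are centralized by subgroups with
countably many orbits. -/

namespace Helper75.Conv

open Topology Filter Set Helper77.Distal
open scoped commutatorElement

universe u

/-- If all orbits have the same finite size, the orbit relation is closed. -/
theorem isClosed_orbitRel {X : Type*} [TopologicalSpace X] [T2Space X] {D : Type*} [Group D]
    [MulAction D X] [ContinuousConstSMul D X] {r : ℕ} (hfin : ∀ y : X, (MulAction.orbit D y).Finite)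
    (hr : ∀ y : X, (MulAction.orbit D y).ncard = r) :
    IsClosed {q : X × X | q.1 ∈ MulAction.orbit D q.2} := by
  rw [← isOpen_compl_iff, isOpen_iff_mem_nhds]
  rintro ⟨z, y⟩ hzy
  have hz : z ∉ MulAction.orbit D y := hzy
  obtain ⟨U, hU, hdis⟩ := ((hfin y).insert z).t2_separation
  have hch : ∀ w : X, ∃ h : D, w ∈ MulAction.orbit D y → h • y = w := by
    intro w
    by_cases hw : w ∈ MulAction.orbit D y
    · obtain ⟨h, rfl⟩ := hw
      exact ⟨h, fun _ => rfl⟩
    · exact ⟨1, fun h => absurd h hw⟩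
  choose h hh using hch
  have hW : {y' : X | ∀ w ∈ MulAction.orbit D y, h w • y' ∈ U w} ∈ 𝓝 y := by
    have : {y' : X | ∀ w ∈ MulAction.orbit D y, h w • y' ∈ U w} =
        ⋂ w ∈ MulAction.orbit D y, (fun y' : X => h w • y') ⁻¹' U w := by
      ext y'
      simp only [Set.mem_ofPred_eq, mem_iInter, mem_preimage]
    rw [this, biInter_mem (hfin y)]
    intro w hw
    refine (continuous_const_smul (h w)).continuousAt.preimage_mem_nhds ?_
    show U w ∈ 𝓝 (h w • y)
    rw [hh w hw]
    exact (hU w).2.mem_nhds (hU w).1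
  have hV : U z ∈ 𝓝 z := (hU z).2.mem_nhds (hU z).1
  filter_upwards [prod_mem_nhds hV hW] with q hq hq'
  obtain ⟨hq1, hq2⟩ := hq
  have hq2' : ∀ w ∈ MulAction.orbit D y, h w • q.2 ∈ U w := hq2
  have hq3 : q.1 ∈ MulAction.orbit D q.2 := hq'
  classical
  -- the points of `insert z (orbit y)` inject into the orbit of `q.2`
  let φ : X → X := fun w => if w = z then q.1 else h w • q.2
  have hφU : ∀ w ∈ insert z (MulAction.orbit D y), φ w ∈ U w := by
    intro w hw
    by_cases hwz : w = z
    · simp only [φ, hwz, if_true]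
      exact hq1
    · simp only [φ, hwz, if_false]
      exact hq2' w (hw.resolve_left hwz)
  have hφo : ∀ w ∈ insert z (MulAction.orbit D y), φ w ∈ MulAction.orbit D q.2 := by
    intro w hw
    by_cases hwz : w = z
    · simp only [φ, hwz, if_true]
      exact hq3
    · simp only [φ, hwz, if_false]
      exact ⟨h w, rfl⟩
  have hinj : InjOn φ (insert z (MulAction.orbit D y)) := by
    intro a ha b hb hab
    by_contra hne
    have h1 := hφU a ha
    rw [hab] at h1
    exact disjoint_left.mp (hdis ha hb hne) h1 (hφU b hb)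
  have hle := ncard_le_ncard_of_injOn φ hφo hinj (hfin q.2)
  rw [ncard_insert_of_notMem hz (hfin y), hr, hr] at hle
  omega

section tower

variable {Γ : Type*} [Group Γ]

/-- The induction. -/
theorem tower {n : ℕ} (N Cs : ℕ → Subgroup Γ) (hN : ∀ i, (N i).Normal)
    (hCs : ∀ i < n, ∀ c ∈ Cs i, ∃ L ≤ N (i + 1), L.relIndex (N (i + 1)) ≠ 0 ∧
      ∀ h ∈ L, ⁅c, h⁆ ∈ N i)
    (T D : Subgroup Γ) [Countable (Γ ⧸ D)]
    (hD : ∀ d ∈ D, ∃ L ≤ T, L.relIndex T ≠ 0 ∧ ∀ h ∈ L, ⁅d, h⁆ ∈ N n) (k : ℕ) :
    ∀ (m : ℕ) (_hmk : m + k = n) (X : Type u) [TopologicalSpace X] [CompactSpace X] [T2Space X]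
    [MulAction Γ X] [ContinuousConstSMul Γ X] (_htr : ∀ x y : X, ∃ g : Γ, g • x = y)
    (_htriv : ∀ g ∈ N m, ∀ y : X, g • y = y)
    (_horb : ∀ i < n, ∃ b : ℕ → X, ∀ y, ∃ j, ∃ c ∈ Cs i, c • b j = y) (x : X)
    (_hinf : {y | ∃ g ∈ T, g • x = y}.Infinite),
    ∃ (s : ℕ → X) (a : X), Function.Injective s ∧ Tendsto s atTop (𝓝 a) := by
  -- commutators that act trivially
  have hswap : ∀ (X : Type u) [MulAction Γ X] (c h : Γ), (∀ y : X, ⁅c, h⁆ • y = y) →
      ∀ y : X, c • h • y = h • c • y := by
    intro X _ c h hy y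
    have h2 : c * h = ⁅c, h⁆ * (h * c) := by
      rw [commutatorElement_def]; group
    calc c • h • y = ⁅c, h⁆ • (h * c) • y := by rw [← mul_smul, ← mul_smul, ← h2]
      _ = h • c • y := by rw [hy, mul_smul]
  induction k with
  | zero =>
    intro m hmk X _ _ _ _ _ htr htriv horb x hinf
    obtain rfl : m = n := hmk
    have : ContinuousConstSMul T X := ⟨fun a => continuous_const_smul (a : Γ)⟩
    refine countable_index htr D (T := T) ?_ (x := x) ?_
    · intro d hd
      obtain ⟨L, hLT, hL, hcL⟩ := hD d hd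
      refine ⟨L.subgroupOf T, ⟨hL⟩, fun t ht y => ?_⟩
      exact hswap X d t (fun y => htriv _ (hcL t (Subgroup.mem_subgroupOf.mp ht)) y) y
    · refine hinf.mono ?_
      rintro _ ⟨g, hg, rfl⟩
      exact ⟨⟨g, hg⟩, rfl⟩
  | succ k ih =>
    intro m hmk X _ _ _ _ _ htr htriv horb x hinf
    have hmn : m < n := by omega
    set A := N (m + 1) with hA
    have hAn : A.Normal := hN (m + 1)
    have : ContinuousConstSMul A X := ⟨fun a => continuous_const_smul (a : Γ)⟩
    -- orbits of `A` are permuted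
    have himg : ∀ (g : Γ) (y : X), MulAction.orbit A (g • y) = (fun z => g • z) '' MulAction.orbit A y := by
      intro g y
      ext z
      constructor
      · rintro ⟨a, rfl⟩
        refine ⟨g⁻¹ • (a : Γ) • g • y, ⟨⟨g⁻¹ * a * g, ?_⟩, ?_⟩, ?_⟩
        · have := hAn.conj_mem a a.2 g⁻¹
          rwa [inv_inv] at this
        · show (g⁻¹ * (a : Γ) * g) • y = _
          rw [mul_smul, mul_smul]
        · show g • g⁻¹ • (a : Γ) • g • y = (a : Γ) • g • y
          rw [smul_inv_smul]
      · rintro ⟨_, ⟨a, rfl⟩, rfl⟩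
        refine ⟨⟨g * a * g⁻¹, hAn.conj_mem a a.2 g⟩, ?_⟩
        show (g * (a : Γ) * g⁻¹) • g • y = g • (a : Γ) • y
        rw [mul_smul, mul_smul, inv_smul_smul]
    by_cases hfin : (MulAction.orbit A x).Finite
    swap
    · obtain ⟨b, hb⟩ := horb m hmn
      obtain ⟨s, a, hs1, hs2⟩ := comm_main (T := A) (X := X) (Y := univ)
        isClosed_univ ⟨x, mem_univ x⟩ (fun _ _ _ => mem_univ _) (by
          intro y _
          obtain ⟨g, rfl⟩ := htr x y
          rw [himg]
          exact Set.Infinite.image (fun a _ b _ hab => smul_left_cancel g hab) hfin)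
        (fun j => {y | ∃ c ∈ Cs m, c • b j = y}) (by
          intro y _
          obtain ⟨j, c, hc, hy⟩ := hb y
          exact mem_iUnion.mpr ⟨j, c, hc, hy⟩) (by
          rintro j _ ⟨c, hc, rfl⟩ _ ⟨c', hc', rfl⟩
          obtain ⟨L, hLT, hL, hcL⟩ := hCs m hmn (c' * c⁻¹) ((Cs m).mul_mem hc' ((Cs m).inv_mem hc))
          refine ⟨fun z => (c' * c⁻¹) • z, continuous_const_smul _, ?_, L.subgroupOf A, ⟨hL⟩, ?_⟩
          · show (c' * c⁻¹) • c • b j = c' • b j
            rw [mul_smul, inv_smul_smul]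
          · intro t ht z
            exact hswap X (c' * c⁻¹) t (fun y => htriv _ (hcL t (Subgroup.mem_subgroupOf.mp ht)) y) z)
      exact ⟨s, a, hs1, hs2⟩
    have hfin' : ∀ y : X, (MulAction.orbit A y).Finite := by
      intro y
      obtain ⟨g, rfl⟩ := htr x y
      rw [himg]
      exact hfin.image _
    have hr : ∀ y : X, (MulAction.orbit A y).ncard = (MulAction.orbit A x).ncard := by
      intro y
      obtain ⟨g, rfl⟩ := htr x y
      rw [himg]
      exact ncard_image_of_injective _ fun a b hab => smul_left_cancel g hab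
    let r := MulAction.orbitRel A X
    let Y := Quotient r
    let π : X → Y := Quotient.mk r
    have hq : IsOpenQuotientMap π := MulAction.isOpenQuotientMap_quotientMk
    have hrel : ∀ a b : X, π a = π b ↔ a ∈ MulAction.orbit A b := by
      intro a b
      rw [← MulAction.orbitRel_apply]
      exact Quotient.eq
    have hT2 : T2Space Y := by
      rw [t2Space_iff_of_isOpenQuotientMap hq]
      have : {q : X × X | π q.1 = π q.2} = {q : X × X | q.1 ∈ MulAction.orbit A q.2} := by
        ext q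
        simp only [hrel, Set.mem_ofPred_eq]
      rw [this]
      exact isClosed_orbitRel hfin' hr
    have hwd : ∀ (g : Γ) (a b : X), r a b → r (g • a) (g • b) := by
      intro g a b hab
      refine MulAction.orbitRel_apply.mpr ?_
      rw [himg]
      exact ⟨a, MulAction.orbitRel_apply.mp hab, rfl⟩
    let act : MulAction Γ Y :=
      { smul := fun g => Quotient.map (fun y => g • y) (hwd g)
        one_smul := by
          rintro ⟨y⟩
          exact congrArg π (one_smul Γ y)
        mul_smul := by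
          rintro g h ⟨y⟩
          exact congrArg π (mul_smul g h y) }
    have hact : ∀ (g : Γ) (y : X), g • π y = π (g • y) := fun g y => rfl
    have hcs : ContinuousConstSMul Γ Y := ⟨fun g => by
      refine hq.isQuotientMap.continuous_iff.mpr ?_
      exact hq.continuous.comp (continuous_const_smul g)⟩
    have hfib : ∀ y : Y, (π ⁻¹' {y}).Finite := by
      intro y
      obtain ⟨b, rfl⟩ := hq.surjective y
      refine (hfin' b).subset ?_
      intro a ha
      exact (hrel a b).mp ha
    obtain ⟨s', a', hs', hlim⟩ := ih (m + 1) (by omega) Y (by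
        intro a b
        obtain ⟨a, rfl⟩ := hq.surjective a
        obtain ⟨b, rfl⟩ := hq.surjective b
        obtain ⟨g, rfl⟩ := htr a b
        exact ⟨g, rfl⟩) (by
        intro d hd y
        obtain ⟨b, rfl⟩ := hq.surjective y
        rw [hact, hrel]
        exact ⟨⟨d, hd⟩, rfl⟩) (by
        intro i hi
        obtain ⟨b, hb⟩ := horb i hi
        refine ⟨fun j => π (b j), fun y => ?_⟩
        obtain ⟨y, rfl⟩ := hq.surjective y
        obtain ⟨j, c, hc, rfl⟩ := hb y
        exact ⟨j, c, hc, rfl⟩) (π x) (by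
        intro hf
        have h5 := hf.preimage' (f := π) (fun b _ => hfib b)
        refine hinf (h5.subset ?_)
        rintro _ ⟨g, hg, rfl⟩
        exact ⟨g, hg, rfl⟩)
    exact lift_finite hq.continuous hq.isOpenMap hq.surjective hs' hlim (hfib a')

/-- **Theorem C.** -/
theorem series {X : Type*} [TopologicalSpace X] [CompactSpace X] [T2Space X]
    [MulAction Γ X] [ContinuousConstSMul Γ X] [MulAction.IsPretransitive Γ X] (n : ℕ)
    (N Cs : ℕ → Subgroup Γ) (hN : ∀ i, (N i).Normal) (hN0 : N 0 = ⊥)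
    (hCs : ∀ i < n, ∀ c ∈ Cs i, ∃ L ≤ N (i + 1), L.relIndex (N (i + 1)) ≠ 0 ∧
      ∀ h ∈ L, ⁅c, h⁆ ∈ N i)
    (horb : ∀ i < n, Countable (MulAction.orbitRel.Quotient (Cs i) X))
    (T D : Subgroup Γ) [Countable (Γ ⧸ D)]
    (hD : ∀ d ∈ D, ∃ L ≤ T, L.relIndex T ≠ 0 ∧ ∀ h ∈ L, ⁅d, h⁆ ∈ N n)
    (x : X) (hinf : (MulAction.orbit T x).Infinite) :
    ∃ (s : ℕ → X) (a : X), Function.Injective s ∧ Tendsto s atTop (𝓝 a) := by
  refine tower N Cs hN hCs T D hD n 0 (by omega) X (MulAction.exists_smul_eq Γ) ?_ ?_ x ?_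
  · intro g hg y
    rw [hN0, Subgroup.mem_bot] at hg
    rw [hg, one_smul]
  · intro i hi
    have := horb i hi
    have hne : Nonempty (MulAction.orbitRel.Quotient (Cs i) X) := ⟨Quotient.mk _ x⟩
    obtain ⟨e, he⟩ := exists_surjective_nat (MulAction.orbitRel.Quotient (Cs i) X)
    refine ⟨fun j => (e j).out, fun y => ?_⟩
    obtain ⟨j, hj⟩ := he (Quotient.mk _ y)
    have h1 : Quotient.mk (MulAction.orbitRel (Cs i) X) (e j).out = Quotient.mk _ y := by
      rw [← hj]; exact Quotient.out_eq _
    obtain ⟨c, hc⟩ := MulAction.orbitRel_apply.mp (Quotient.exact h1.symm)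
    exact ⟨j, c, c.2, hc⟩
  · refine hinf.mono ?_
    rintro _ ⟨g, rfl⟩
    exact ⟨g, g.2, rfl⟩

end tower

end Helper75.Conv
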